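import Pool.Agent.Helper27.CK3.Glue

/-!
# CK3: the reductive subgroups of real rank two or three, assembly
-/

set_option autoImplicit false

namespace Pool.Agent.Helper27.CK3

open Matrix Module Pool.Agent.Helper40.CK Pool.Agent.Helper29.CKP Pool.Agent.Helper20.CKP
  Pool.Agent.Helper20.CK3

variable {K : Type} [RCLike K] {n N : ℕ} {G : Subgroup (GL (Fin N) ℝ)}
  {P : Matrix (Fin 3) (Fin n) K →ₗ[ℝ] Matrix (Fin N) (Fin N) ℝ} {H : Subgroup G}

theorem cj_conj {U : Matrix (Fin 3) (Fin 3) K} {W : Matrix (Fin n) (Fin n) K}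
    (hU : U * Uᴴ = 1) (hW : W * Wᴴ = 1) {X B : Matrix (Fin 3) (Fin n) K}
    (h : Cj X (U * B * W)) : Cj X B := by
  obtain ⟨U', W', hU', hW', e⟩ := h
  refine ⟨U' * U, W * W', ?_, ?_, ?_⟩
  · rw [conjTranspose_mul]
    calc U' * U * (Uᴴ * U'ᴴ) = U' * (U * Uᴴ) * U'ᴴ := by simp only [Matrix.mul_assoc]
      _ = 1 := by rw [hU, Matrix.mul_one, hU']
  · rw [conjTranspose_mul]
    calc W * W' * (W'ᴴ * Wᴴ) = W * (W' * W'ᴴ) * Wᴴ := by simp only [Matrix.mul_assoc]
      _ = 1 := by rw [hW', Matrix.mul_one, hW]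
  · rw [e]
    simp only [Matrix.mul_assoc]

theorem cj_trans {X Y Z : Matrix (Fin 3) (Fin n) K} (h1 : Cj X Y) (h2 : Cj Y Z) : Cj X Z := by
  obtain ⟨U, W, hU, hW, e⟩ := h2
  rw [e] at h1
  exact cj_conj hU hW h1

/-- A swap of two coordinates. -/
theorem cj_swap (hWY : S_WY) (hn : 3 ≤ n) (e : Equiv.Perm (Fin 3)) (s : Fin 3 → ℝ) :
    Cj (dg K n s) (dg K n fun i => s (e i)) := by
  have h := hWY K n hn e.symm (fun _ => 1) (fun i => s (e i)) fun _ => Or.inl rfl
  have h2 : (fun i => (1 : ℝ) * s (e (e.symm i))) = s := by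
    funext i
    rw [one_mul, Equiv.apply_symm_apply]
  have h3 : (fun i => (fun _ : Fin 3 => (1 : ℝ)) i * (fun i => s (e i)) (e.symm i)) = s := h2
  rw [h3] at h
  exact h

theorem ne_zero_trans {U : Matrix (Fin 3) (Fin 3) K} (hU : U * Uᴴ = 1) {w : Fin 3 → K}
    (hw : w ≠ 0) : Uᴴ *ᵥ w ≠ 0 := by
  intro h
  apply hw
  have h1 : U *ᵥ (Uᴴ *ᵥ w) = w := by rw [Matrix.mulVec_mulVec, hU, Matrix.one_mulVec]
  rw [← h1, h, Matrix.mulVec_zero]

theorem star_trans {U : Matrix (Fin 3) (Fin 3) K} (w : Fin 3 → K) :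
    star (Uᴴ *ᵥ w) = star w ᵥ* U := by
  rw [Matrix.star_mulVec, conjTranspose_conjTranspose]

/-- The case of real rank two or three. -/
theorem r23_of (hSV : S_SV) (hSIM : Pool.Agent.Helper30.RT.S_SIM) (hCH : S_CH) (hWY : S_WY)
    (h1 : S_T1) (h2 : S_T2) (h3 : S_T3) (hALG : S_ALG) : S_R23 := by
  intro K _ n hn H hH hr had
  have hn3 : 3 ≤ n := by omega
  have D := pdataK K 3 n
  have hd : 0 < finrank ℝ K := Module.finrank_pos
  have hnd : 11 ≤ n * finrank ℝ K := by nlinarith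
  obtain ⟨E, F, hE1, hE2, hFc, hFo, hFa⟩ := exists_odd D hH had
  have hlts : Lts ((pSpace (H.map (UpqK K 3 n).subtype)).comap (pcK K 3 n)) :=
    fun B hB C hC => D.triple_mem hH hB hC
  have hmem := fun X => D.mem_iff hH (X := X)
  obtain ⟨a, haV, hac, ham⟩ :=
    exists_max ((pSpace (H.map (UpqK K 3 n).subtype)).comap (pcK K 3 n))
  have ha2 := two_le D hH hr ham
  have hle := map_le D.red hH
  set q := pSpace (H.map (UpqK K 3 n).subtype) with hq
  set V := q.comap (pcK K 3 n) with hV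
  obtain ⟨U, W, hU, hW, hUW⟩ := hSIM K n hn3 a hac
  have hU' : Uᴴ * U = 1 := mul_eq_one_comm.1 hU
  have hW' : Wᴴ * W = 1 := mul_eq_one_comm.1 hW
  have hU2 : Uᴴ * Uᴴᴴ = 1 := by rw [conjTranspose_conjTranspose, hU']
  -- the diagonal matrices
  set S : Submodule ℝ (Fin 3 → ℝ) := (a.map (conjL U W)).comap (dgL K n) with hS
  have hSmem : ∀ s, s ∈ S ↔ ∃ B ∈ a, conjL U W B = dg K n s := fun s => by
    rw [hS, Submodule.mem_comap, Submodule.mem_map]
    rfl
  have hmapS : S.map (dgL K n) = a.map (conjL U W) := by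
    rw [hS, Submodule.map_comap_eq, inf_eq_right]
    rintro _ ⟨B, hB, rfl⟩
    obtain ⟨d, hd⟩ := hUW B hB
    rw [rt_dg] at hd
    exact ⟨d, hd.symm⟩
  have hfinS : finrank ℝ S = finrank ℝ a := by
    have e1 := (Submodule.equivMapOfInjective (dgL K n) (dgL_inj hn3) S).finrank_eq
    have e2 := (Submodule.equivMapOfInjective (conjL U W) (conjL_inj hU hW) a).finrank_eq
    rw [e1, hmapS, ← e2]
  -- the odd map avoids the conjugates of the diagonal matrices of `S`
  have havoid : ∀ x : E, x ≠ 0 → ∀ s ∈ S, ¬ Cj (F x) (dg K n s) := by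
    intro x hx s hs hcj
    obtain ⟨B, hB, e⟩ := (hSmem s).1 hs
    rw [← e] at hcj
    refine hFa x hx B (haV hB) (cj_conj hU ?_ hcj)
    rw [conjTranspose_conjTranspose, hW']
  obtain ⟨sg, hsc, hsg, -, -⟩ := hSV K n hn3
  have hinjP : Function.Injective (pcK K 3 n) := D.inj
  by_cases h4 : 3 ≤ finrank ℝ a
  · -- all diagonal matrices
    left
    have hStop : S = ⊤ := Submodule.eq_top_of_finrank_eq (by
      have := Submodule.finrank_le S
      rw [Module.finrank_fin_fun] at this ⊢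
      omega)
    have hE0 : finrank ℝ E = 0 := by
      by_contra h0
      have h5 : 0 < finrank ℝ E := Nat.pos_of_ne_zero h0
      have : Nontrivial E := Module.finrank_pos_iff.1 h5
      obtain ⟨x, hx⟩ := exists_ne (0 : E)
      exact havoid x hx (sg (F x)) (by rw [hStop]; exact Submodule.mem_top) (hsg _).conj
    have hVtop : V = ⊤ := Submodule.eq_top_of_finrank_eq (by
      have := Submodule.finrank_le V
      rw [finrank_mat] at this ⊢
      omega)
    refine le_antisymm hle fun X hX => ?_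
    obtain ⟨B, rfl⟩ := (D.mem _).1 hX
    have : B ∈ V := by rw [hVtop]; exact Submodule.mem_top
    exact this
  · -- a plane
    right
    have hS2 : finrank ℝ S = 2 := by omega
    obtain ⟨ν, hν0, hν⟩ := exists_normal S hS2
    set V' := V.map (conjL U W) with hV'
    have hfinV' : finrank ℝ V' = finrank ℝ V :=
      ((Submodule.equivMapOfInjective (conjL U W) (conjL_inj hU hW) V).finrank_eq).symm
    have havoid' : ∀ x : E, x ≠ 0 → ∀ s : Fin 3 → ℝ, ∑ i, ν i * s i = 0 →
        ¬ Cj (F x) (dg K n s) := fun x hx s hs => havoid x hx s ((hν s).2 hs)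
    have hNle : finrank ℝ E ≤ n * finrank ℝ K := by
      by_cases hE : 2 ≤ finrank ℝ E
      · rcases hCH K n hn3 E hE F hFc ν hν0 havoid' with h5 | h5 | h5
        · exact h1 K n hn3 E F hFc hFo h5
        · exact h2 K n hn3 E F hFc hFo h5
        · exact (h3 K n hn3 E F hFc hFo h5).1
      · omega
    have hdiag : ∀ s : Fin 3 → ℝ, ∑ i, ν i * s i = 0 → dg K n s ∈ V' := by
      intro s hs
      obtain ⟨B, hB, e⟩ := (hSmem s).1 ((hν s).2 hs)
      exact ⟨B, haV hB, e⟩
    obtain ⟨w, hw0, hw⟩ := hALG K n hn V' (lts_map hU hW hlts) ν hν0 hdiag (by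
      rintro _ ⟨X, hX, rfl⟩ hcomm
      have hXa : X ∈ a := by
        refine mem_of_max haV hac ham hX fun A hA => ?_
        obtain ⟨d, hd⟩ := hUW A hA
        rw [rt_dg] at hd
        have hdS : d ∈ S := (hSmem d).2 ⟨A, hA, hd⟩
        have h5 := hcomm d ((hν d).1 hdS)
        rw [← hd] at h5
        exact cm_conjL hU hW h5
      obtain ⟨d, hd⟩ := hUW X hXa
      rw [rt_dg] at hd
      exact ⟨d, (hν d).1 ((hSmem d).2 ⟨X, hXa, hd⟩), hd⟩) (by
      rw [hfinV']
      omega)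
    have hsw0 : star w ≠ 0 := fun h => hw0 (by rw [← star_star w, h, star_zero])
    have hVle : V' ≤ LinearMap.ker (killL (star w) n) := fun B hB => by
      rw [LinearMap.mem_ker]
      exact hw B hB
    have hVfin := Submodule.finrank_mono hVle
    rw [finrank_kill hsw0, hfinV'] at hVfin
    have hVeq : V' = LinearMap.ker (killL (star w) n) :=
      Submodule.eq_of_le_of_finrank_eq hVle (by
        rw [finrank_kill hsw0, hfinV']
        omega)
    have hNeq : finrank ℝ E = n * finrank ℝ K := by omega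
    -- the vector `ν` is a multiple of a coordinate vector
    obtain ⟨i₀, hi₀⟩ := Function.ne_iff.1 hsw0
    have hi₀' : star w i₀ ≠ 0 := hi₀
    have hzero : ∀ s ∈ S, s i₀ = 0 := by
      intro s hs
      have h5 : star w ᵥ* dg K n s = 0 := hw _ (hdiag s ((hν s).1 hs))
      have h6 := congrFun h5 (Fin.castLE hn3 i₀)
      rw [vecMul_dg _ _ hn3] at h6
      have h7 : ((s i₀ : ℝ) : K) = 0 := (mul_eq_zero.1 h6).resolve_left hi₀'
      exact_mod_cast h7
    have hSeq : S = LinearMap.ker (LinearMap.proj i₀ : (Fin 3 → ℝ) →ₗ[ℝ] ℝ) := by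
      refine Submodule.eq_of_le_of_finrank_eq (fun s hs => ?_) ?_
      · rw [LinearMap.mem_ker]
        exact hzero s hs
      · have h5 := (LinearMap.proj i₀ : (Fin 3 → ℝ) →ₗ[ℝ] ℝ).finrank_range_add_finrank_ker
        have h6 : LinearMap.range (LinearMap.proj i₀ : (Fin 3 → ℝ) →ₗ[ℝ] ℝ) = ⊤ :=
          LinearMap.range_eq_top.2 (LinearMap.proj_surjective i₀)
        rw [h6, finrank_top, Module.finrank_self, Module.finrank_fin_fun] at h5
        omega
    have h4n : 4 ∣ n := by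
      refine (h3 K n hn3 E F hFc hFo fun x hx s hs => ?_).2 hNeq
      rcases (hs.nonneg 2).lt_or_eq with h5 | h5
      · exact h5
      · exfalso
        have h6 := cj_trans hs.conj (cj_swap hWY hn3 (Equiv.swap 2 i₀) s)
        refine havoid x hx _ ?_ h6
        rw [hSeq, LinearMap.mem_ker]
        show s (Equiv.swap 2 i₀ i₀) = 0
        rw [Equiv.swap_apply_right, ← h5]
    refine ⟨h4n, Uᴴ *ᵥ w, ne_zero_trans hU hw0, fun X => ?_⟩
    have hVmem : ∀ B, B ∈ V ↔ star (Uᴴ *ᵥ w) ᵥ* B = 0 := by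
      intro B
      have h5 : B ∈ V ↔ conjL U W B ∈ V' := by
        constructor
        · exact fun h => ⟨B, h, rfl⟩
        · rintro ⟨C, hC, e⟩
          rwa [← conjL_inj hU hW e]
      rw [h5, hVeq, LinearMap.mem_ker, star_trans]
      show star w ᵥ* (U * B * Wᴴ) = 0 ↔ star w ᵥ* U ᵥ* B = 0
      rw [← Matrix.vecMul_vecMul, ← Matrix.vecMul_vecMul]
      constructor
      · intro h6
        have h7 : (star w ᵥ* U ᵥ* B ᵥ* Wᴴ) ᵥ* W = 0 := by rw [h6, Matrix.zero_vecMul]
        rwa [Matrix.vecMul_vecMul, hW', Matrix.vecMul_one] at h7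
      · intro h6
        rw [h6, Matrix.zero_vecMul]
    rw [hmem]
    constructor
    · rintro ⟨B, hB, rfl⟩
      exact ⟨B, (hVmem B).1 hB, rfl⟩
    · rintro ⟨B, hB, rfl⟩
      exact ⟨B, (hVmem B).2 hB, rfl⟩

end Pool.Agent.Helper27.CK3
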