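import Pool.Agent.Helper27.CK3.Main
import Pool.Agent.Helper20.CK3.Alg6
import Pool.Agent.Helper30.RT.T12
import Pool.Agent.Helper30.RT.T3
import Pool.Agent.Helper43.CK3.SV
import Pool.Agent.Helper94.CK3.Sim

/-!
# CK3: the list for `U(3, n; K)`, real rank two or three
-/

set_option autoImplicit false

namespace Pool.Agent.Helper27.CK3

open Pool.Agent.Helper20.CK3

theorem s_R23 : S_R23 :=
  r23_of Pool.Agent.Helper43.CK3.s_SV Pool.Agent.Helper94.CK3.s_SIM
    (Pool.Agent.Helper43.CK3.s_CH Pool.Agent.Helper43.CK3.s_SV) Pool.Agent.Helper43.CK3.s_WY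
    (Pool.Agent.Helper30.RT.s_T1 Pool.Agent.Helper43.CK3.s_SV)
    (Pool.Agent.Helper30.RT.s_T2 Pool.Agent.Helper43.CK3.s_SV)
    (Pool.Agent.Helper30.RT.s_T3 Pool.Agent.Helper43.CK3.s_SV) Pool.Agent.Helper20.CK3.s_ALG

end Pool.Agent.Helper27.CK3
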