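import Pool.Agent.Helper27.CK3.Lin
import Pool.Agent.Helper43.CK3.CH

/-!
# CK3: the reductive subgroups of real rank two or three
-/

set_option autoImplicit false

namespace Pool.Agent.Helper27.CK3

open Matrix Module Topology Filter NormedSpace Pool.Agent.Helper40.CK Pool.Agent.Helper17.CKF
  Pool.Agent.Helper29.CKP Pool.Agent.Helper20.CKP Pool.Agent.Helper20.CK3

variable {K : Type} [RCLike K] {n N : ℕ} {G : Subgroup (GL (Fin N) ℝ)}
  {P : Matrix (Fin 3) (Fin n) K →ₗ[ℝ] Matrix (Fin N) (Fin N) ℝ} {H : Subgroup G}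

/-- If the real rank is not at most one, a maximal commuting subspace has dimension at least two. -/
theorem two_le (D : PData K 3 n G P) (hH : IsReductive (H.map G.subtype))
    (h1 : ¬ RealRankLeOne (H.map G.subtype))
    {a : Submodule ℝ (Matrix (Fin 3) (Fin n) K)}
    (hm : ∀ a' : Submodule ℝ (Matrix (Fin 3) (Fin n) K),
      a' ≤ (pSpace (H.map G.subtype)).comap P →
      (∀ A ∈ a', ∀ B ∈ a', Cm A B) → finrank ℝ a' ≤ finrank ℝ a) : 2 ≤ finrank ℝ a := by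
  unfold RealRankLeOne at h1
  push Not at h1
  obtain ⟨X, hX, Y, hY, hXY, hli⟩ := h1
  obtain ⟨B, hB, rfl⟩ := (D.mem_iff hH).1 hX
  obtain ⟨C, hC, rfl⟩ := (D.mem_iff hH).1 hY
  have hBC : Cm B C := D.comm B C hXY
  have h2 : LinearIndependent ℝ ![B, C] := by
    rw [LinearIndependent.pair_iff] at hli ⊢
    intro s t hst
    apply hli
    rw [← map_smul, ← map_smul, ← map_add, hst, map_zero]
  have h3 : finrank ℝ (Submodule.span ℝ (Set.range ![B, C])) = 2 := by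
    rw [finrank_span_eq_card h2, Fintype.card_fin]
  rw [← h3]
  refine hm _ ?_ (span_cm ?_)
  · rw [Submodule.span_le]
    rintro A ⟨i, rfl⟩
    fin_cases i
    · exact hB
    · exact hC
  · rintro A ⟨i, rfl⟩ A' ⟨j, rfl⟩
    fin_cases i <;> fin_cases j
    · exact cm_self _
    · exact hBC
    · exact cm_symm hBC
    · exact cm_self _

/-- The image under `B ↦ U * B * Wᴴ`. -/
def conjL (U : Matrix (Fin 3) (Fin 3) K) (W : Matrix (Fin n) (Fin n) K) :
    Matrix (Fin 3) (Fin n) K →ₗ[ℝ] Matrix (Fin 3) (Fin n) K where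
  toFun := fun B => U * B * Wᴴ
  map_add' := fun B C => by rw [Matrix.mul_add, Matrix.add_mul]
  map_smul' := fun c B => by rw [RingHom.id_apply, Matrix.mul_smul, Matrix.smul_mul]

theorem conjL_back {U : Matrix (Fin 3) (Fin 3) K} {W : Matrix (Fin n) (Fin n) K}
    (hU : U * Uᴴ = 1) (hW : W * Wᴴ = 1) (B : Matrix (Fin 3) (Fin n) K) :
    Uᴴ * conjL U W B * W = B := by
  have hU' : Uᴴ * U = 1 := mul_eq_one_comm.1 hU
  have hW' : Wᴴ * W = 1 := mul_eq_one_comm.1 hW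
  show Uᴴ * (U * B * Wᴴ) * W = B
  calc Uᴴ * (U * B * Wᴴ) * W = (Uᴴ * U) * B * (Wᴴ * W) := by simp only [Matrix.mul_assoc]
    _ = B := by rw [hU', hW', Matrix.one_mul, Matrix.mul_one]

theorem conjL_inj {U : Matrix (Fin 3) (Fin 3) K} {W : Matrix (Fin n) (Fin n) K}
    (hU : U * Uᴴ = 1) (hW : W * Wᴴ = 1) : Function.Injective (conjL (n := n) U W) := by
  intro B C h
  rw [← conjL_back hU hW B, h, conjL_back hU hW C]

theorem conjL_triple {U : Matrix (Fin 3) (Fin 3) K} {W : Matrix (Fin n) (Fin n) K}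
    (hU : U * Uᴴ = 1) (hW : W * Wᴴ = 1) (A B C : Matrix (Fin 3) (Fin n) K) :
    conjL U W A * (conjL U W B)ᴴ * conjL U W C = conjL U W (A * Bᴴ * C) := by
  have hU' : Uᴴ * U = 1 := mul_eq_one_comm.1 hU
  have hW' : Wᴴ * W = 1 := mul_eq_one_comm.1 hW
  show U * A * Wᴴ * (U * B * Wᴴ)ᴴ * (U * C * Wᴴ) = U * (A * Bᴴ * C) * Wᴴ
  rw [conjTranspose_mul, conjTranspose_mul, conjTranspose_conjTranspose]
  calc U * A * Wᴴ * (W * (Bᴴ * Uᴴ)) * (U * C * Wᴴ)
      = U * A * (Wᴴ * W) * Bᴴ * (Uᴴ * U) * C * Wᴴ := by simp only [Matrix.mul_assoc]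
    _ = _ := by
      rw [hU', hW', Matrix.mul_one, Matrix.mul_one]
      simp only [Matrix.mul_assoc]

theorem lts_map {U : Matrix (Fin 3) (Fin 3) K} {W : Matrix (Fin n) (Fin n) K}
    (hU : U * Uᴴ = 1) (hW : W * Wᴴ = 1) {V : Submodule ℝ (Matrix (Fin 3) (Fin n) K)}
    (hV : Lts V) : Lts (V.map (conjL U W)) := by
  rintro _ ⟨B, hB, rfl⟩ _ ⟨C, hC, rfl⟩
  refine ⟨_, hV B hB C hC, ?_⟩
  rw [conjL_triple hU hW, conjL_triple hU hW, conjL_triple hU hW, map_sub, map_sub, map_smul]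

theorem cm_conjL {U : Matrix (Fin 3) (Fin 3) K} {W : Matrix (Fin n) (Fin n) K}
    (hU : U * Uᴴ = 1) (hW : W * Wᴴ = 1) {B C : Matrix (Fin 3) (Fin n) K}
    (h : Cm (conjL U W B) (conjL U W C)) : Cm B C := by
  have hU' : Uᴴ * U = 1 := mul_eq_one_comm.1 hU
  have hW' : Wᴴ * W = 1 := mul_eq_one_comm.1 hW
  have e1 : ∀ A B : Matrix (Fin 3) (Fin n) K,
      A * Bᴴ = Uᴴ * (conjL U W A * (conjL U W B)ᴴ) * U := by
    intro A B
    show A * Bᴴ = Uᴴ * (U * A * Wᴴ * (U * B * Wᴴ)ᴴ) * U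
    rw [conjTranspose_mul, conjTranspose_mul, conjTranspose_conjTranspose]
    calc A * Bᴴ = (Uᴴ * U) * A * (Wᴴ * W) * Bᴴ * (Uᴴ * U) := by
          rw [hU', hW', Matrix.one_mul, Matrix.mul_one, Matrix.mul_one]
      _ = _ := by simp only [Matrix.mul_assoc]
  have e2 : ∀ A B : Matrix (Fin 3) (Fin n) K,
      Aᴴ * B = Wᴴ * ((conjL U W A)ᴴ * conjL U W B) * W := by
    intro A B
    show Aᴴ * B = Wᴴ * ((U * A * Wᴴ)ᴴ * (U * B * Wᴴ)) * W
    rw [conjTranspose_mul, conjTranspose_mul, conjTranspose_conjTranspose]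
    calc Aᴴ * B = (Wᴴ * W) * Aᴴ * (Uᴴ * U) * B * (Wᴴ * W) := by
          rw [hU', hW', Matrix.one_mul, Matrix.mul_one, Matrix.mul_one]
      _ = _ := by simp only [Matrix.mul_assoc]
  exact ⟨(e1 B C).trans ((congrArg (fun Z => Uᴴ * Z * U) h.1).trans (e1 C B).symm),
    (e2 B C).trans ((congrArg (fun Z => Wᴴ * Z * W) h.2).trans (e2 C B).symm)⟩

/-- The odd map. -/
theorem exists_odd (D : PData K 3 n G P) (hH : IsReductive (H.map G.subtype))
    (had : AdmitsCocompact H) :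
    ∃ (E : Submodule ℝ (Matrix (Fin N) (Fin N) ℝ)) (F : E → Matrix (Fin 3) (Fin n) K),
      3 * (n * finrank ℝ K) ≤
        finrank ℝ E + finrank ℝ ((pSpace (H.map G.subtype)).comap P) ∧
      finrank ℝ E + finrank ℝ ((pSpace (H.map G.subtype)).comap P) ≤
        3 * (n * finrank ℝ K) ∧
      ContinuousOn F {0}ᶜ ∧ (∀ x, x ≠ 0 → F (-x) = -F x) ∧
      ∀ x, x ≠ 0 → ∀ B ∈ (pSpace (H.map G.subtype)).comap P, ¬ Cj (F x) B := by
  classical
  set M := oneM D.red.closed with hM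
  have hqp := map_le D.red hH
  rw [D.finrank_comap hH]
  have hmem := fun X => D.mem_iff hH (X := X)
  set q := pSpace (H.map G.subtype) with hq
  have hCG : Cartan M ⊤ (pSpace G) := cartan_top D.red
  have hCH : Cartan M H q := cartan_one _ hH
  obtain ⟨Γ, hΓ⟩ := had
  obtain ⟨F, hFc, hF⟩ := odd_map M hCG hCH hΓ
  obtain ⟨c, hc⟩ := P.exists_leftInverse_of_injective (LinearMap.ker_eq_bot.2 D.inj)
  have hc : ∀ B, c (P B) = B := fun B => LinearMap.congr_fun hc B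
  obtain ⟨E, hE, hE1, hE2⟩ := finrank_perp q (pSpace G)
  have hdim : finrank ℝ (pSpace G) = 3 * (n * finrank ℝ K) := by
    have h1 : pSpace G = LinearMap.range P := by
      ext X
      rw [D.mem, LinearMap.mem_range]
      exact ⟨fun ⟨B, h⟩ => ⟨B, h.symm⟩, fun ⟨B, h⟩ => ⟨B, h.symm⟩⟩
    rw [h1, LinearMap.finrank_range_of_inj D.inj, finrank_mat]
  rw [hdim] at hE1 hE2
  have hx0 : ∀ x : E, x ≠ 0 → (x : Matrix (Fin N) (Fin N) ℝ) ≠ 0 := fun x hx h =>
    hx (Subtype.ext h)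
  have hxE := fun x : E => (hE x).1 x.2
  have hFp := fun (x : E) (hx : x ≠ 0) => hF x (hxE x).1 (hxE x).2 (hx0 x hx)
  have hPB : ∀ x : E, x ≠ 0 → F x = P (c (F x)) := by
    intro x hx
    obtain ⟨B, hB⟩ := (D.mem _).1 (hFp x hx).1
    rw [hB, hc]
  refine ⟨E, fun x => c (F x), hE1, hE2 hqp hCG.symm, ?_, ?_, ?_⟩
  · have h1 : Continuous c := c.continuous_of_finiteDimensional
    refine h1.comp_continuousOn (hFc.comp continuous_subtype_val.continuousOn ?_)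
    intro x hx
    exact ⟨(hxE x).1, (hxE x).2, hx0 x hx⟩
  · intro x hx
    have h1 : ((-x : E) : Matrix (Fin N) (Fin N) ℝ) = -x := rfl
    show c (F ((-x : E) : Matrix (Fin N) (Fin N) ℝ)) = -c (F x)
    rw [h1, (hFp x hx).2.1, map_neg]
  · rintro x hx B hB ⟨U, W, hU, hW, e⟩
    have hW' : Wᴴ * Wᴴᴴ = 1 := by
      rw [conjTranspose_conjTranspose]
      exact mul_eq_one_comm.1 hW
    obtain ⟨g, hg, hg1, hg2⟩ := D.conj U Wᴴ hU hW'
    refine (hFp x hx).2.2 ⟨g, hg⟩ hg1 (P B) hB ?_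
    show F x = (g : Matrix (Fin N) (Fin N) ℝ) * P B * (g : Matrix (Fin N) (Fin N) ℝ)ᵀ
    rw [hPB x hx, hg2, conjTranspose_conjTranspose]
    exact congrArg P e

end Pool.Agent.Helper27.CK3
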