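import Pool.Agent.Helper20.CK3.Stmts
import Pool.Agent.Helper30.RT.Defs

/-!
# CK3: maximal commuting spaces and diagonal matrices
-/

set_option autoImplicit false

namespace Pool.Agent.Helper27.CK3

open Matrix Module Pool.Agent.Helper20.CK3

variable {K : Type} [RCLike K] {n : ℕ}

theorem cm_symm {B C : Matrix (Fin 3) (Fin n) K} (h : Cm B C) : Cm C B := ⟨h.1.symm, h.2.symm⟩

theorem cm_self (B : Matrix (Fin 3) (Fin n) K) : Cm B B := ⟨rfl, rfl⟩

theorem cm_add {A B C : Matrix (Fin 3) (Fin n) K} (h : Cm A C) (h' : Cm B C) : Cm (A + B) C := by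
  refine ⟨?_, ?_⟩
  · rw [Matrix.add_mul, conjTranspose_add, Matrix.mul_add, h.1, h'.1]
  · rw [Matrix.mul_add, conjTranspose_add, Matrix.add_mul, h.2, h'.2]

theorem cm_smul {A C : Matrix (Fin 3) (Fin n) K} (c : ℝ) (h : Cm A C) : Cm (c • A) C := by
  refine ⟨?_, ?_⟩
  · rw [Matrix.smul_mul, conjTranspose_smul, star_trivial, Matrix.mul_smul, h.1]
  · rw [Matrix.mul_smul, conjTranspose_smul, star_trivial, Matrix.smul_mul, h.2]

/-- The elements commuting with all elements of a set form a subspace. -/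
def cent (s : Set (Matrix (Fin 3) (Fin n) K)) : Submodule ℝ (Matrix (Fin 3) (Fin n) K) where
  carrier := {A | ∀ C ∈ s, Cm A C}
  add_mem' := fun {A B} hA hB C hC => cm_add (hA C hC) (hB C hC)
  zero_mem' := fun C _ => by
    have := cm_smul (0 : ℝ) (cm_self C)
    rwa [zero_smul] at this
  smul_mem' := fun c A hA C hC => cm_smul c (hA C hC)

theorem mem_cent {s : Set (Matrix (Fin 3) (Fin n) K)} {A : Matrix (Fin 3) (Fin n) K} :
    A ∈ cent s ↔ ∀ C ∈ s, Cm A C := Iff.rfl

theorem span_cm {s : Set (Matrix (Fin 3) (Fin n) K)} (h : ∀ A ∈ s, ∀ B ∈ s, Cm A B) :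
    ∀ A ∈ Submodule.span ℝ s, ∀ B ∈ Submodule.span ℝ s, Cm A B := by
  have h1 : ∀ A ∈ Submodule.span ℝ s, ∀ C ∈ s, Cm A C := by
    intro A hA C hC
    have : Submodule.span ℝ s ≤ cent {C} := Submodule.span_le.2 fun B hB D hD => by
      rw [Set.mem_singleton_iff] at hD
      subst hD
      exact h B hB D hC
    exact this hA C rfl
  intro A hA B hB
  have : Submodule.span ℝ s ≤ cent {A} := Submodule.span_le.2 fun C hC D hD => by
    rw [Set.mem_singleton_iff] at hD
    subst hD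
    exact cm_symm (h1 D hA C hC)
  exact cm_symm (this hB A rfl)

/-- A commuting subspace of maximal dimension. -/
theorem exists_max (V : Submodule ℝ (Matrix (Fin 3) (Fin n) K)) :
    ∃ a : Submodule ℝ (Matrix (Fin 3) (Fin n) K), a ≤ V ∧ (∀ A ∈ a, ∀ B ∈ a, Cm A B) ∧
      ∀ a' : Submodule ℝ (Matrix (Fin 3) (Fin n) K), a' ≤ V → (∀ A ∈ a', ∀ B ∈ a', Cm A B) →
        finrank ℝ a' ≤ finrank ℝ a := by
  obtain ⟨a, ha, hmax⟩ := WellFounded.has_min
    (measure fun a : Submodule ℝ (Matrix (Fin 3) (Fin n) K) =>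
      finrank ℝ (Matrix (Fin 3) (Fin n) K) - finrank ℝ a).wf
    {a | a ≤ V ∧ ∀ A ∈ a, ∀ B ∈ a, Cm A B} ⟨⊥, bot_le, by
      intro A hA B hB
      rw [Submodule.mem_bot] at hA hB
      subst hA
      subst hB
      exact cm_self 0⟩
  refine ⟨a, ha.1, ha.2, fun a' h1 h2 => ?_⟩
  have h3 : ¬ (finrank ℝ (Matrix (Fin 3) (Fin n) K) - finrank ℝ a' <
      finrank ℝ (Matrix (Fin 3) (Fin n) K) - finrank ℝ a) := hmax a' ⟨h1, h2⟩
  have h4 := Submodule.finrank_le a'
  have h5 := Submodule.finrank_le a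
  omega

theorem mem_of_max {V a : Submodule ℝ (Matrix (Fin 3) (Fin n) K)} (ha : a ≤ V)
    (hc : ∀ A ∈ a, ∀ B ∈ a, Cm A B)
    (hm : ∀ a' : Submodule ℝ (Matrix (Fin 3) (Fin n) K), a' ≤ V →
      (∀ A ∈ a', ∀ B ∈ a', Cm A B) → finrank ℝ a' ≤ finrank ℝ a)
    {X : Matrix (Fin 3) (Fin n) K} (hX : X ∈ V) (h : ∀ A ∈ a, Cm X A) : X ∈ a := by
  have h1 : Submodule.span ℝ ((a : Set (Matrix (Fin 3) (Fin n) K)) ∪ {X}) ≤ V := by
    rw [Submodule.span_le]
    rintro A (hA | hA)
    · exact ha hA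
    · rw [Set.mem_singleton_iff] at hA
      rw [hA]
      exact hX
  have h2 := hm _ h1 (span_cm (by
    rintro A (hA | hA) B (hB | hB)
    · exact hc A hA B hB
    · rw [Set.mem_singleton_iff] at hB
      subst hB
      exact cm_symm (h A hA)
    · rw [Set.mem_singleton_iff] at hA
      subst hA
      exact h B hB
    · rw [Set.mem_singleton_iff] at hA hB
      subst hA
      subst hB
      exact cm_self _))
  have h3 : a ≤ Submodule.span ℝ ((a : Set (Matrix (Fin 3) (Fin n) K)) ∪ {X}) :=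
    fun A hA => Submodule.subset_span (Or.inl hA)
  rw [Submodule.eq_of_le_of_finrank_le h3 h2]
  exact Submodule.subset_span (Or.inr rfl)

/-- The real diagonal matrices. -/
def dgL (K : Type) [RCLike K] (n : ℕ) : (Fin 3 → ℝ) →ₗ[ℝ] Matrix (Fin 3) (Fin n) K where
  toFun := dg K n
  map_add' := fun s t => by
    ext i j
    simp only [dg, Matrix.of_apply, Matrix.add_apply, Pi.add_apply]
    split_ifs
    · push_cast
      rfl
    · rw [add_zero]
  map_smul' := fun c s => by
    ext i j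
    simp only [dg, Matrix.of_apply, Matrix.smul_apply, Pi.smul_apply, RingHom.id_apply]
    split_ifs
    · rw [smul_eq_mul, RCLike.real_smul_eq_coe_mul]
      push_cast
      rfl
    · rw [smul_zero]

theorem dgL_apply (s : Fin 3 → ℝ) : dgL K n s = dg K n s := rfl

theorem dg_apply (s : Fin 3 → ℝ) (hn : 3 ≤ n) (i : Fin 3) :
    dg K n s i (Fin.castLE hn i) = ((s i : ℝ) : K) := by
  simp [dg]

theorem dgL_inj (hn : 3 ≤ n) : Function.Injective (dgL K n) := by
  intro s t h
  ext i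
  have h1 := congrFun (congrFun h i) (Fin.castLE hn i)
  rw [dgL_apply, dgL_apply, dg_apply s hn, dg_apply t hn] at h1
  exact_mod_cast h1

theorem rt_dg (s : Fin 3 → ℝ) : Pool.Agent.Helper30.RT.dg K n s = dg K n s := by
  ext i j
  simp only [Pool.Agent.Helper30.RT.dg, dg, Matrix.of_apply]
  by_cases h : (j : ℕ) = i
  · rw [if_pos h, if_pos h.symm]
  · rw [if_neg h, if_neg fun e => h e.symm]

theorem vecMul_dg (w : Fin 3 → K) (s : Fin 3 → ℝ) (hn : 3 ≤ n) (i : Fin 3) :
    (w ᵥ* dg K n s) (Fin.castLE hn i) = w i * ((s i : ℝ) : K) := by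
  rw [Matrix.vecMul, dotProduct, Finset.sum_eq_single i]
  · rw [dg_apply]
  · intro j _ hj
    have : ¬ ((j : ℕ) = ((Fin.castLE hn i : Fin n) : ℕ)) := by
      intro e
      exact hj (Fin.ext e)
    simp only [dg, Matrix.of_apply, if_neg this, mul_zero]
  · intro h
    exact absurd (Finset.mem_univ i) h

/-- The matrices killed by a nonzero vector. -/
def killL (w : Fin 3 → K) (n : ℕ) : Matrix (Fin 3) (Fin n) K →ₗ[ℝ] (Fin n → K) where
  toFun := fun B => w ᵥ* B
  map_add' := fun B C => Matrix.vecMul_add B C w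
  map_smul' := fun c B => by
    rw [RingHom.id_apply, Matrix.vecMul_smul]

theorem killL_surj {w : Fin 3 → K} (hw : w ≠ 0) : Function.Surjective (killL w n) := by
  intro y
  obtain ⟨i, hi⟩ := Function.ne_iff.1 hw
  refine ⟨vecMulVec (Pi.single i (w i)⁻¹) y, ?_⟩
  show w ᵥ* vecMulVec (Pi.single i (w i)⁻¹) y = y
  rw [Matrix.vecMul_vecMulVec]
  have h1 : w ⬝ᵥ Pi.single i (w i)⁻¹ = 1 := by
    rw [dotProduct_single]
    exact mul_inv_cancel₀ hi
  rw [h1]
  simp

theorem finrank_mat : finrank ℝ (Matrix (Fin 3) (Fin n) K) = 3 * (n * finrank ℝ K) := by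
  rw [Module.finrank_matrix, Fintype.card_fin, Fintype.card_fin, mul_assoc]

theorem finrank_kill {w : Fin 3 → K} (hw : w ≠ 0) :
    finrank ℝ (LinearMap.ker (killL w n)) = 2 * (n * finrank ℝ K) := by
  have h1 := (killL w n).finrank_range_add_finrank_ker
  rw [LinearMap.range_eq_top.2 (killL_surj hw), finrank_top, finrank_mat,
    Module.finrank_pi_fintype] at h1
  simp only [Finset.sum_const, Finset.card_univ, Fintype.card_fin, smul_eq_mul] at h1
  omega

/-- A plane of `ℝ ^ 3` is the orthogonal complement of a vector. -/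
theorem exists_normal (S : Submodule ℝ (Fin 3 → ℝ)) (hS : finrank ℝ S = 2) :
    ∃ ν : Fin 3 → ℝ, ν ≠ 0 ∧ ∀ s, s ∈ S ↔ ∑ i, ν i * s i = 0 := by
  have h1 : S ≠ ⊤ := by
    rintro rfl
    rw [finrank_top, Module.finrank_fin_fun] at hS
    omega
  obtain ⟨f, hf0, hf⟩ := Submodule.exists_le_ker_of_lt_top S (lt_top_iff_ne_top.2 h1)
  have hfs : ∀ s : Fin 3 → ℝ, f s = ∑ i, f (Pi.single i 1) * s i := by
    intro s
    have h2 : s = ∑ i, s i • (Pi.single i (1 : ℝ) : Fin 3 → ℝ) := by
      ext j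
      simp [Finset.sum_apply, Pi.single_apply]
    conv_lhs => rw [h2]
    rw [map_sum]
    refine Finset.sum_congr rfl fun i _ => ?_
    rw [map_smul, smul_eq_mul, mul_comm]
  have h3 : finrank ℝ (LinearMap.ker f) = 2 := by
    have h4 := f.finrank_range_add_finrank_ker
    rw [Module.finrank_fin_fun] at h4
    have h5 : finrank ℝ (LinearMap.range f) = 1 := by
      have h6 : finrank ℝ (LinearMap.range f) ≤ 1 := by
        have := Submodule.finrank_le (LinearMap.range f)
        rwa [Module.finrank_self] at this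
      have h7 : finrank ℝ (LinearMap.range f) ≠ 0 := by
        intro h0
        rw [Submodule.finrank_eq_zero, LinearMap.range_eq_bot] at h0
        exact hf0 h0
      omega
    omega
  have h6 : S = LinearMap.ker f := Submodule.eq_of_le_of_finrank_eq hf (by rw [hS, h3])
  refine ⟨fun i => f (Pi.single i 1), ?_, fun s => ?_⟩
  · intro h0
    apply hf0
    ext i
    have := congrFun h0 i
    simpa using this
  · rw [← hfs, h6, LinearMap.mem_ker]

end Pool.Agent.Helper27.CK3
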